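import Mathlib

set_option autoImplicit false

namespace Pool.Agent.Results.MP_7aef23_nt.ThetaOne
open Finset Filter

/-- `x` is a sum of `k` elements of `A ∪ -A`. -/
def Rep (A : Set ℤ) (k : ℕ) (x : ℤ) : Prop :=
  ∃ f : Fin k → ℤ, (∀ i, f i ∈ A ∨ -f i ∈ A) ∧ ∑ i, f i = x

/-- Sets of positive integers generating `ℤ` whose elements of word length `r` are `W ∪ -W`. -/
def Good (r : ℕ) (W : Finset ℤ) (A : Set ℤ) : Prop :=
  (∀ a ∈ A, 0 < a) ∧ (∀ x, ∃ k, Rep A k x) ∧
    ∀ x, (Rep A r x ∧ ∀ k < r, ¬ Rep A k x) ↔ (x ∈ W ∨ -x ∈ W)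

theorem Rep.neg {A : Set ℤ} {k : ℕ} {x : ℤ} (h : Rep A k x) : Rep A k (-x) := by
  obtain ⟨f, h1, rfl⟩ := h
  exact ⟨fun i => -f i, fun i => by simpa [or_comm] using h1 i, by simp⟩

theorem Rep.add {A : Set ℤ} {k : ℕ} {x a : ℤ} (h : Rep A k x) (ha : a ∈ A ∨ -a ∈ A) :
    Rep A (k + 1) (a + x) := by
  obtain ⟨f, h1, rfl⟩ := h
  exact ⟨Fin.cons a f, Fin.cases ha h1, by simp [Fin.sum_univ_succ]⟩

theorem rep_sum {A : Set ℤ} {ι : Type} (I : Finset ι) (f : ι → ℤ)
    (h : ∀ i, f i ∈ A ∨ -f i ∈ A) : Rep A I.card (∑ i ∈ I, f i) := by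
  classical
  induction I using Finset.induction_on with
  | empty => exact ⟨Fin.elim0, fun i => i.elim0, rfl⟩
  | insert a I ha ih => rw [card_insert_of_notMem ha, sum_insert ha]; exact ih.add (h a)

theorem tern (d : ℕ → ℤ) (hd : ∀ i, |d i| ≤ 2) (t : ℕ) : |∑ i ∈ range t, d i * 3 ^ i| < 3 ^ t ∧
    (∑ i ∈ range t, d i * 3 ^ i = 0 → ∀ i < t, d i = 0) := by
  induction t with
  | zero => simp
  | succ t ih =>
    have h1 := abs_lt.1 ih.1
    have h2 := abs_le.1 (hd t)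
    have h3 : (0 : ℤ) < 3 ^ t := by positivity
    rw [sum_range_succ, pow_succ]
    refine ⟨abs_lt.2 ⟨by nlinarith, by nlinarith⟩, fun h i hi => ?_⟩
    have h4 : d t = 0 := by
      by_contra c
      rcases lt_or_gt_of_ne c with c | c <;> nlinarith
    rcases (Nat.lt_succ_iff.1 hi).eq_or_lt with rfl | hi
    · exact h4
    · exact ih.2 (by simpa [h4] using h) i hi

theorem exists_lam (t : ℕ) : ∃ l : Fin (t + 1) → ℤ, ∑ i, l i = 0 ∧ ∀ d : Fin (t + 1) → ℤ,
    (∀ i, |d i| ≤ 1) → ∑ i, d i * l i = 0 → ∀ i, d i = d (Fin.last t) := by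
  refine ⟨Fin.snoc (α := fun _ => ℤ) (fun j : Fin t => 3 ^ j.1) (-∑ j : Fin t, 3 ^ j.1),
    by simp [Fin.sum_univ_castSucc], fun d hd h i => ?_⟩
  let e : ℕ → ℤ := fun j => if h : j < t then d (Fin.castSucc ⟨j, h⟩) - d (Fin.last t) else 0
  have := (tern e (fun j => by
    simp only [e]
    split_ifs with c
    · exact (abs_sub _ _).trans (by linarith [hd (Fin.castSucc ⟨j, c⟩), hd (Fin.last t)])
    · simp) t).2 (by
    rw [← Fin.sum_univ_eq_sum_range (fun j => e j * 3 ^ j), ← h]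
    simp [e, Fin.sum_univ_castSucc, mul_sum, sub_eq_add_neg, add_mul, sum_add_distrib]
    rfl)
  induction i using Fin.lastCases with
  | last => rfl
  | cast j => exact sub_eq_zero.1 ((dif_pos j.2).symm.trans (this j j.2))

theorem exists_good (t : ℕ) (W : Finset ℤ) (hW : ∀ w ∈ W, 0 < w) :
    ∃ (A : Set ℤ) (M : ℕ), Good (t + 2) W A ∧ 0 < M ∧ ∀ k : ℕ, 0 < k → (M * k : ℤ) ∈ A := by
  classical
  obtain ⟨B, hB⟩ : ∃ B : ℕ, ∀ w ∈ W, w ≤ B := by
    obtain ⟨B, hB⟩ := W.bddAbove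
    exact ⟨B.toNat, fun w hw => (hB hw).trans (Int.self_le_toNat B)⟩
  let p : Fin (t + 1) → ℕ := fun i => Nat.nth Nat.Prime (B + i)
  have pp : ∀ i, (p i).Prime := fun i => Nat.prime_nth_prime _
  have pB : ∀ i, B < p i := fun i => by have := Nat.add_two_le_nth_prime (B + i); simp only [p]; omega
  have pc : Pairwise (Function.onFun IsCoprime fun i => (p i : ℤ)) := fun i j h =>
    Nat.isCoprime_iff_coprime.2 ((Nat.coprime_primes (pp i) (pp j)).2 fun e => h (Fin.ext (by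
      have := Nat.nth_injective Nat.infinite_setOfPred_prime e; omega)))
  obtain ⟨μ, hμ⟩ := exists_sum_eq_one_iff_pairwise_coprime'.2 pc
  set u : Fin (t + 1) → ℤ := fun i => μ i * ∏ j ∈ {i}ᶜ, (p j : ℤ) with hu
  have u0 : ∀ i j, j ≠ i → (p j : ℤ) ∣ u i := fun i j h =>
    (dvd_prod_of_mem _ (by simpa using h)).mul_left _
  have u1 : ∀ (c : Fin (t + 1) → ℤ) i, (p i : ℤ) ∣ ∑ j, c j * u j - c i := fun c i => by
    have : ∑ j, c j * u j - c i = ∑ j, (c j - c i) * u j := by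
      simp only [sub_mul, sum_sub_distrib, ← mul_sum]; rw [hμ, mul_one]
    rw [this]
    refine dvd_sum fun j _ => ?_
    by_cases h : i = j
    · simp [h]
    · exact (u0 j i h).mul_left _
  obtain ⟨l, l0, l1⟩ := exists_lam t
  let M : ℤ := ∏ i, (p i : ℤ)
  have M0 : 0 < M := prod_pos fun i _ => by exact_mod_cast (pp i).pos
  have pM : ∀ i, (p i : ℤ) ∣ M := fun i => dvd_prod_of_mem _ (mem_univ i)
  let U : ℤ := ∑ i, |u i|
  let Λ : ℤ := ∑ i, |l i|
  have U0 : 0 ≤ U := sum_nonneg fun _ _ => abs_nonneg _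
  have Λ0 : 0 ≤ Λ := sum_nonneg fun _ _ => abs_nonneg _
  let K : ℕ → ℤ := fun n => Nat.rec 0 (fun n k => B + (n + 1) * U + (Λ + 1) * k + 1) n
  have Ks : ∀ n, K (n + 1) = B + (n + 1) * U + (Λ + 1) * K n + 1 := fun _ => rfl
  have K0 : ∀ n, 0 ≤ K n := fun n => by
    induction n with
    | zero => exact le_rfl
    | succ n ih => rw [Ks]; positivity
  have Km : Monotone K := monotone_nat_of_le_succ fun n => by
    have := mul_nonneg Λ0 (K0 n)
    have : 0 ≤ ((n : ℤ) + 1) * U := by positivity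
    rw [Ks]; nlinarith
  let e : ℕ → Fin (t + 1) → ℤ := fun x i => x * u i + M * K x * l i
  have es : ∀ x, ∑ i, e x i = x := fun x => by
    simp only [e, sum_add_distrib, ← mul_sum, l0]; rw [hμ]; simp
  have e0 : ∀ x i j, j ≠ i → (p j : ℤ) ∣ e x i := fun x i j h =>
    ((u0 i j h).mul_left _).add (((pM j).mul_right _).mul_right _)
  have e1 : ∀ x i, (p i : ℤ) ∣ e x i - x := fun x i => by
    rw [← es x, ← add_sum_erase _ _ (mem_univ i), sub_add_cancel_left, dvd_neg]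
    exact dvd_sum fun j hj => e0 x j i (ne_of_mem_erase hj).symm
  let F : ℕ → Prop := fun x => (x : ℤ) ∉ W ∧ ∀ i, ¬ (p i : ℤ) ∣ x
  let A : Set ℤ := {a | 0 < a ∧ (M ∣ a ∨ ∃ x i, F x ∧ a = |e x i|)}
  have eA : ∀ x, F x → ∀ i, e x i ∈ A ∨ -e x i ∈ A := fun x hx i => by
    have : e x i ≠ 0 := fun h => hx.2 i (by simpa [h] using e1 x i)
    rcases lt_or_gt_of_ne this with h | h
    · exact Or.inr ⟨by omega, Or.inr ⟨x, i, hx, (abs_of_neg h).symm⟩⟩
    · exact Or.inl ⟨h, Or.inr ⟨x, i, hx, (abs_of_pos h).symm⟩⟩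
  have mA : ∀ a, a ≠ 0 → M ∣ a → a ∈ A ∨ -a ∈ A := fun a h h' => by
    rcases lt_or_gt_of_ne h with h | h
    · exact Or.inr ⟨by omega, Or.inl h'.neg_right⟩
    · exact Or.inl ⟨h, Or.inl h'⟩
  have full : ∀ x, F x → Rep A (t + 1) x := fun x hx => by
    simpa [es] using rep_sum univ (e x) (eA x hx)
  have big : ∀ y : ℤ, (∀ i, ¬ (p i : ℤ) ∣ y) → ∃ x : ℕ, F x ∧ M ∣ y - x ∧ y - x ≠ 0 := by
    intro y hy
    have h1 : |y| + B < y + M * (2 * |y| + B + 1) := by
      nlinarith [abs_nonneg y, neg_abs_le y, (B.cast_nonneg : (0 : ℤ) ≤ B)]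
    obtain ⟨x, hx⟩ := Int.eq_ofNat_of_zero_le (a := y + M * (2 * |y| + B + 1))
      (by linarith [abs_nonneg y, (B.cast_nonneg : (0 : ℤ) ≤ B)])
    refine ⟨x, ⟨fun h => ?_, fun i h => hy i ?_⟩, by rw [← hx]; simp, ?_⟩
    · linarith [hB _ h, abs_nonneg y]
    · rw [← hx] at h
      exact (dvd_add_left ((pM i).mul_right _)).1 h
    · exact (by linarith [le_abs_self y, (B.cast_nonneg : (0 : ℤ) ≤ B)] : y - x < 0).ne
  have pW : ∀ w ∈ W, ∀ i, ¬ (p i : ℤ) ∣ w := fun w hw i h => by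
    have := Int.le_of_dvd (hW w hw) h
    have := hB w hw
    have := pB i
    omega
  have wr : ∀ w ∈ W, Rep A (t + 2) w := fun w hw => by
    obtain ⟨x, a, b, c⟩ := big w (pW w hw)
    simpa using (full x a).add (mA _ c b)
  have small : ∀ x, x ∉ W → -x ∉ W → ∃ k < t + 2, Rep A k x := by
    intro x h1 h2
    by_cases h : ∀ i, ¬ (p i : ℤ) ∣ x
    · rcases Int.natAbs_eq x with c | c
      · exact ⟨t + 1, by omega, c ▸ full _ ⟨c ▸ h1, c ▸ h⟩⟩
      · refine ⟨t + 1, by omega, c ▸ (full _ ⟨?_, fun i hi => h i (c ▸ hi.neg_right)⟩).neg⟩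
        rwa [c, neg_neg] at h2
    let c : Fin (t + 1) → ℤ := fun i => if (p i : ℤ) ∣ x then 1 else x
    obtain ⟨y, a, b, -⟩ := big (∑ j, c j * u j) fun i hi => by
      have := (dvd_sub_right hi).1 (u1 c i)
      simp only [c] at this
      split_ifs at this with h
      · exact (pp i).one_lt.ne' (by exact_mod_cast Int.eq_one_of_dvd_one (by positivity) this)
      · exact h this
    let I := univ.filter fun i => ¬ (p i : ℤ) ∣ x
    have hI : I.card < t + 1 := by
      simpa using card_lt_card (filter_ssubset.2 (by simpa using h) : I ⊂ univ)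
    have r1 := rep_sum I (e y) (eA y a)
    have hd : M ∣ x - ∑ i ∈ I, e y i := Fintype.prod_dvd_of_coprime pc fun i => by
      by_cases h : (p i : ℤ) ∣ x
      · exact h.sub (dvd_sum fun j hj => e0 y j i fun c => (mem_filter.1 hj).2 (c ▸ h))
      · rw [← add_sum_erase _ _ (mem_filter.2 ⟨mem_univ i, h⟩ : i ∈ I), ← sub_sub]
        refine dvd_sub ?_ (dvd_sum fun j hj => e0 y j i (ne_of_mem_erase hj).symm)
        have a1 := u1 c i
        simp only [c, h, if_false] at a1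
        convert (((pM i).trans b).sub a1).sub (e1 y i) using 1
        simp only [c]; ring
    by_cases h0 : x - ∑ i ∈ I, e y i = 0
    · exact ⟨_, by omega, sub_eq_zero.1 h0 ▸ r1⟩
    · exact ⟨I.card + 1, by omega, by simpa using r1.add (mA _ h0 hd)⟩
  have key : ∀ w ∈ W, ∀ k < t + 2, ¬ Rep A k w := by
    rintro w hw k hk ⟨f, h1, h2⟩
    have : ∀ i, ∃ (j : Fin k) (x : ℕ) (ε : ℤ), ¬ (p i : ℤ) ∣ f j ∧ F x ∧ (ε = 1 ∨ ε = -1) ∧
        f j = ε * e x i := fun i => by
      obtain ⟨j, hj⟩ : ∃ j, ¬ (p i : ℤ) ∣ f j := by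
        by_contra c
        push Not at c
        exact pW w hw i (h2 ▸ dvd_sum fun j _ => c j)
      have : M ∣ f j ∨ ∃ x i, F x ∧ |f j| = |e x i| := by
        rcases h1 j with ⟨a, b | ⟨x, i, b, c⟩⟩ | ⟨a, b | ⟨x, i, b, c⟩⟩
        · exact Or.inl b
        · exact Or.inr ⟨x, i, b, (abs_of_pos a).trans c⟩
        · exact Or.inl (dvd_neg.1 b)
        · exact Or.inr ⟨x, i, b, (abs_of_neg (by omega)).trans c⟩
      obtain ⟨x, i', a, b⟩ := this.resolve_left fun h => hj ((pM i).trans h)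
      obtain rfl : i = i' := by
        by_contra c
        exact hj ((dvd_abs _ _).1 (b ▸ (dvd_abs _ _).2 (e0 x i' i c)))
      rcases abs_eq_abs.1 b with b | b
      · exact ⟨j, x, 1, hj, a, Or.inl rfl, by rw [b, one_mul]⟩
      · exact ⟨j, x, -1, hj, a, Or.inr rfl, by rw [b, neg_one_mul]⟩
    choose g x ε g1 g2 g3 g4 using this
    have gi : Function.Injective g := fun i j h => by
      by_contra c
      exact g1 i (by rw [h, g4 j]; exact (e0 _ j i c).mul_left _)
    have gb : Function.Bijective g := (Fintype.bijective_iff_injective_and_card g).2 ⟨gi, by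
      have := Fintype.card_le_of_injective g gi
      simp only [Fintype.card_fin] at this ⊢; omega⟩
    rw [← gb.sum_comp] at h2
    simp only [g4] at h2
    obtain ⟨i0, -, hi0⟩ := exists_max_image univ x univ_nonempty
    have ε1 : ∀ i, |ε i| = 1 := fun i => by rcases g3 i with h | h <;> simp [h]
    let d : Fin (t + 1) → ℤ := fun i => if x i = x i0 then ε i else 0
    have d1 : ∀ i, |d i| ≤ 1 := fun i => by simp only [d]; split_ifs <;> simp [ε1]
    by_cases h : ∑ i, d i * l i = 0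
    · have a1 : ∀ i, d i = ε i0 := fun i => by
        rw [l1 d d1 h i, ← l1 d d1 h i0]; simp [d]
      have a2 : ∀ i, x i = x i0 ∧ ε i = ε i0 := fun i => by
        have b1 := a1 i
        have b2 := ε1 i0
        simp only [d] at b1
        split_ifs at b1 with c
        · exact ⟨c, b1⟩
        · rw [← b1] at b2; simp at b2
      simp only [(a2 _).1, (a2 _).2, ← mul_sum, es] at h2
      rcases g3 i0 with c | c <;> rw [c] at h2
      · exact (g2 i0).1 (by rwa [← h2, one_mul] at hw)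
      · have := hW w hw; omega
    · obtain ⟨N, hN⟩ : ∃ N, x i0 = N + 1 := Nat.exists_eq_succ_of_ne_zero fun c =>
        (g2 i0).2 i0 (by simp [c])
      have a1 : M * K (N + 1) * ∑ i, d i * l i = w - ∑ i, (ε i * x i * u i +
          if x i = x i0 then 0 else ε i * M * K (x i) * l i) := by
        rw [← h2, ← sum_sub_distrib, mul_sum]
        refine sum_congr rfl fun i _ => ?_
        simp only [d, e]
        split_ifs with c
        · rw [c, hN]; ring
        · ring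
      have a2 : |∑ i, (ε i * x i * u i + if x i = x i0 then 0 else ε i * M * K (x i) * l i)| ≤
          (N + 1) * U + M * K N * Λ := by
        simp only [U, Λ, mul_sum, ← sum_add_distrib]
        refine (abs_sum_le_sum_abs _ _).trans (sum_le_sum fun i _ => (abs_add_le _ _).trans
          (add_le_add ?_ ?_))
        · rw [abs_mul, abs_mul, ε1, one_mul, Nat.abs_cast]
          gcongr
          exact_mod_cast hN ▸ hi0 i (mem_univ i)
        · split_ifs with c
          · have := K0 N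
            simp only [abs_zero]; positivity
          · rw [abs_mul, abs_mul, abs_mul, ε1, one_mul, abs_of_pos M0, abs_of_nonneg (K0 _)]
            gcongr
            exact Km (by have := hi0 i (mem_univ i); omega)
      have a3 : M * K (N + 1) ≤ |M * K (N + 1) * ∑ i, d i * l i| := by
        rw [abs_mul, abs_of_nonneg (mul_nonneg M0.le (K0 (N + 1)))]
        exact le_mul_of_one_le_right (mul_nonneg M0.le (K0 (N + 1))) (Int.one_le_abs h)
      rw [a1] at a3
      have a4 := a3.trans ((abs_sub _ _).trans (add_le_add le_rfl a2))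
      rw [abs_of_pos (hW w hw), Ks] at a4
      have a5 : 0 ≤ (M - 1) * (B + (N + 1) * U + 1) := mul_nonneg (by omega) (by positivity)
      nlinarith [hB w hw, mul_nonneg M0.le (K0 N)]
  refine ⟨A, M.toNat, ⟨fun a ha => ha.1, fun x => ?_, fun x => ⟨fun h => ?_, ?_⟩⟩, by omega,
    fun k hk => ?_⟩
  · by_cases h1 : x ∈ W
    · exact ⟨_, wr x h1⟩
    by_cases h2 : -x ∈ W
    · exact ⟨_, by simpa using (wr _ h2).neg⟩
    · obtain ⟨k, -, h⟩ := small x h1 h2
      exact ⟨k, h⟩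
  · by_contra c
    obtain ⟨k, a, b⟩ := small x (fun h => c (Or.inl h)) fun h => c (Or.inr h)
    exact h.2 k a b
  · rintro (h | h)
    · exact ⟨wr x h, key x h⟩
    · exact ⟨by simpa using (wr _ h).neg, fun k hk c => key _ h k hk c.neg⟩
  · rw [Int.toNat_of_nonneg M0.le]
    exact ⟨by positivity, Or.inl (dvd_mul_right _ _)⟩

theorem result (r : ℕ) (hr : 2 ≤ r) (W : Finset ℤ) (hW : ∀ w ∈ W, 0 < w) :
    IsGreatest {θ : ℝ | 0 < θ ∧ ∃ A : Set ℤ, Good r W A ∧ ∃ c : ℝ, 0 < c ∧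
      ∀ᶠ t : ℝ in atTop, c * t ^ θ ≤ ({a ∈ A | (a : ℝ) ≤ t}.ncard : ℝ)} 1 := by
  have sub : ∀ (A : Set ℤ) (t : ℝ), (∀ a ∈ A, 0 < a) → {a ∈ A | (a : ℝ) ≤ t} ⊆ Finset.Icc 1 ⌊t⌋ :=
    fun A t h a ha => by simpa using ⟨h a ha.1, Int.le_floor.2 ha.2⟩
  constructor
  · obtain ⟨t, rfl⟩ := Nat.exists_eq_add_of_le' hr
    obtain ⟨A, M, h1, h2, h3⟩ := exists_good t W hW
    have h4 : (0 : ℝ) < M := by exact_mod_cast h2
    refine ⟨one_pos, A, h1, 1 / (2 * M), by positivity,
      (eventually_ge_atTop (2 * M : ℝ)).mono fun s hs => ?_⟩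
    have h5 := Set.ncard_le_ncard_of_injOn (fun k : ℕ => (M * k : ℤ)) (s := Finset.Icc 1 ⌊s / M⌋₊)
      (t := {a ∈ A | (a : ℝ) ≤ s}) (fun k hk => by
        simp only [coe_Icc, Set.mem_Icc] at hk
        refine ⟨h3 k hk.1, ?_⟩
        have := (Nat.le_floor_iff (div_nonneg (by linarith) h4.le)).1 hk.2
        push_cast
        rwa [le_div_iff₀' h4] at this)
      (fun a _ b _ h => by simpa [h2.ne'] using h)
      ((Finset.finite_toSet _).subset (sub A s h1.1))
    rw [Set.ncard_coe_finset, Nat.card_Icc, Nat.add_sub_cancel] at h5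
    have h6 := Nat.lt_floor_add_one (s / M)
    have h7 : (2 : ℝ) ≤ s / M := by rwa [le_div_iff₀ h4]
    have h8 : (⌊s / M⌋₊ : ℝ) ≤ ({a ∈ A | (a : ℝ) ≤ s}.ncard : ℝ) := by exact_mod_cast h5
    rw [Real.rpow_one, show 1 / (2 * M) * s = s / M / 2 by field_simp]
    linarith
  · rintro θ ⟨-, A, h1, c, hc, h⟩
    by_contra h2
    obtain ⟨s, ⟨a, b⟩, d⟩ := ((h.and (eventually_gt_atTop 0)).and
      ((tendsto_rpow_atTop (sub_pos.2 (not_le.1 h2))).eventually_gt_atTop (1 / c))).exists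
    have h3 := Set.ncard_le_ncard (sub A s h1.1) (Finset.finite_toSet _)
    rw [Set.ncard_coe_finset, Int.card_Icc, add_sub_cancel_right] at h3
    have h4 : ({a ∈ A | (a : ℝ) ≤ s}.ncard : ℝ) ≤ s :=
      (Nat.cast_le.2 h3).trans (Nat.floor_le b.le)
    rw [Real.rpow_sub_one b.ne', div_lt_div_iff₀ hc b] at d
    linarith

end Pool.Agent.Results.MP_7aef23_nt.ThetaOne
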